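import Pool.Agent.Helper33.TB.Goals

/-!
# Packet TV (MP_74f661_nt): thinning by large primes is nearly independent thinning
-/

set_option autoImplicit false

open Finset

namespace Pool.Agent.Helper70.TB

open Pool.Agent.Helper33.TB

/-- independent thinning -/
noncomputable def Ig (g : ℝ) (U : Finset ℕ) (f : Finset ℕ → ℝ) : ℝ :=
  ∑ K ∈ U.powerset, g ^ K.card * (1 - g) ^ (U.card - K.card) * f K

theorem Ig_empty (g : ℝ) (f : Finset ℕ → ℝ) : Ig g ∅ f = f ∅ := by
  simp [Ig]

theorem Ig_insert (g : ℝ) (i : ℕ) (U : Finset ℕ) (hi : i ∉ U) (f : Finset ℕ → ℝ) :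
    Ig g (insert i U) f = g * Ig g U (fun K => f (insert i K)) + (1 - g) * Ig g U f := by
  unfold Ig
  rw [Finset.sum_powerset_insert hi, add_comm, mul_sum, mul_sum]
  congr 1
  · refine sum_congr rfl fun K hK => ?_
    rw [mem_powerset] at hK
    have hiK : i ∉ K := fun h => hi (hK h)
    rw [card_insert_of_notMem hi, card_insert_of_notMem hiK, Nat.add_sub_add_right, pow_succ]
    ring
  · refine sum_congr rfl fun K hK => ?_
    rw [mem_powerset] at hK
    have hc := card_le_card hK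
    rw [card_insert_of_notMem hi, show U.card + 1 - K.card = (U.card - K.card) + 1 by omega,
      pow_succ]
    ring

theorem Ig_congr (g : ℝ) (U : Finset ℕ) (f f' : Finset ℕ → ℝ) (h : ∀ K, K ⊆ U → f K = f' K) :
    Ig g U f = Ig g U f' := by
  unfold Ig
  exact sum_congr rfl fun K hK => by rw [h K (mem_powerset.mp hK)]

theorem Ig_comb (g a b : ℝ) (U : Finset ℕ) (f f' : Finset ℕ → ℝ) :
    Ig g U (fun K => a * f K + b * f' K) = a * Ig g U f + b * Ig g U f' := by
  unfold Ig
  rw [mul_sum, mul_sum, ← sum_add_distrib]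
  exact sum_congr rfl fun K _ => by ring

theorem Ig_one (U : Finset ℕ) (f : Finset ℕ → ℝ) : Ig 1 U f = f U := by
  classical
  induction U using Finset.induction_on generalizing f with
  | empty => exact Ig_empty 1 f
  | insert i U hi ih =>
    rw [Ig_insert 1 i U hi, ih, ih]
    ring

theorem Ig_comp (g c : ℝ) (U : Finset ℕ) (f : Finset ℕ → ℝ) :
    Ig g U (fun K => Ig c K f) = Ig (g * c) U f := by
  classical
  induction U using Finset.induction_on generalizing f with
  | empty => simp [Ig_empty]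
  | insert i U hi ih =>
    rw [Ig_insert g i U hi, Ig_insert (g * c) i U hi]
    have h1 : Ig g U (fun K => Ig c (insert i K) f) =
        c * Ig g U (fun K => Ig c K (fun J => f (insert i J))) +
          (1 - c) * Ig g U (fun K => Ig c K f) := by
      rw [← Ig_comb]
      refine Ig_congr _ _ _ _ fun K hK => ?_
      exact Ig_insert c i K (fun h => hi (hK h)) f
    rw [h1, ih, ih]
    ring

theorem Ig_le (g : ℝ) (h0 : 0 ≤ g) (h1 : g ≤ 1) (U : Finset ℕ) (f : Finset ℕ → ℝ) (M : ℝ)
    (hf : ∀ K, K ⊆ U → |f K| ≤ M) : |Ig g U f| ≤ M := by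
  classical
  induction U using Finset.induction_on generalizing f with
  | empty => rw [Ig_empty]; exact hf ∅ (Subset.refl _)
  | insert i U hi ih =>
    rw [Ig_insert g i U hi]
    have h2 := ih (fun K => f (insert i K)) (fun K hK => hf _ (insert_subset_insert i hK))
    have h3 := ih f (fun K hK => hf _ (hK.trans (subset_insert i U)))
    have h4 := abs_add_le (g * Ig g U (fun K => f (insert i K))) ((1 - g) * Ig g U f)
    rw [abs_mul, abs_mul, abs_of_nonneg h0, abs_of_nonneg (sub_nonneg.mpr h1)] at h4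
    have h5 := mul_le_mul_of_nonneg_left h2 h0
    have h6 := mul_le_mul_of_nonneg_left h3 (sub_nonneg.mpr h1)
    linarith

/-- first order -/
theorem Ig_near (a : ℝ) (h0 : 0 ≤ a) (h1 : a ≤ 1) (K : Finset ℕ) (f : Finset ℕ → ℝ)
    (hf : ∀ J, J ⊆ K → |f J| ≤ 1) : |Ig (1 - a) K f - f K| ≤ 2 * a * K.card := by
  classical
  induction K using Finset.induction_on generalizing f with
  | empty => rw [Ig_empty]; simp
  | insert i K hi ih =>
    rw [Ig_insert (1 - a) i K hi, card_insert_of_notMem hi]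
    have h2 := ih (fun J => f (insert i J)) (fun J hJ => hf _ (insert_subset_insert i hJ))
    have h3 := Ig_le (1 - a) (by linarith) (by linarith) K f 1
      (fun J hJ => hf _ (hJ.trans (subset_insert i K)))
    have h4 := hf (insert i K) (Subset.refl _)
    have e : (1 - a) * Ig (1 - a) K (fun J => f (insert i J)) + (1 - (1 - a)) * Ig (1 - a) K f -
        f (insert i K) = (1 - a) * (Ig (1 - a) K (fun J => f (insert i J)) - f (insert i K)) +
          a * (Ig (1 - a) K f - f (insert i K)) := by ring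
    rw [e]
    have h5 := abs_add_le ((1 - a) * (Ig (1 - a) K (fun J => f (insert i J)) - f (insert i K)))
      (a * (Ig (1 - a) K f - f (insert i K)))
    rw [abs_mul, abs_mul, abs_of_nonneg h0, abs_of_nonneg (sub_nonneg.mpr h1)] at h5
    have h6 : |Ig (1 - a) K f - f (insert i K)| ≤ 2 := by
      have := abs_sub (Ig (1 - a) K f) (f (insert i K))
      linarith
    have h7 := mul_le_mul_of_nonneg_left h6 h0
    have h8 := mul_le_mul_of_nonneg_left h2 (sub_nonneg.mpr h1)
    have h9 : (1 - a) * (2 * a * (K.card : ℝ)) ≤ 2 * a * (K.card : ℝ) := by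
      have : 0 ≤ a * (2 * a * (K.card : ℝ)) := by positivity
      linarith
    push_cast
    linarith

/-- second order -/
theorem Ig_second (a : ℝ) (h0 : 0 ≤ a) (h1 : a ≤ 1) (K : Finset ℕ) (f : Finset ℕ → ℝ)
    (hf : ∀ J, J ⊆ K → |f J| ≤ 1) :
    |Ig (1 - a) K f - (f K + ∑ i ∈ K, a * (f (K.erase i) - f K))| ≤
      2 * a ^ 2 * (K.card * (K.card - 1 : ℝ)) := by
  classical
  induction K using Finset.induction_on generalizing f with
  | empty => rw [Ig_empty]; simp
  | insert i K hi ih =>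
    rw [Ig_insert (1 - a) i K hi, card_insert_of_notMem hi, sum_insert hi, erase_insert hi]
    have h2 := ih (fun J => f (insert i J)) (fun J hJ => hf _ (insert_subset_insert i hJ))
    have h3 := Ig_near a h0 h1 K (fun J => f (insert i J))
      (fun J hJ => hf _ (insert_subset_insert i hJ))
    have h4 := Ig_near a h0 h1 K f (fun J hJ => hf _ (hJ.trans (subset_insert i K)))
    have e1 : ∑ j ∈ K, a * (f ((insert i K).erase j) - f (insert i K)) =
        ∑ j ∈ K, a * (f (insert i (K.erase j)) - f (insert i K)) := by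
      refine sum_congr rfl fun j hj => ?_
      have hij : i ≠ j := fun h => hi (h ▸ hj)
      rw [erase_insert_of_ne hij]
    rw [e1]
    have e : (1 - a) * Ig (1 - a) K (fun J => f (insert i J)) + (1 - (1 - a)) * Ig (1 - a) K f -
        (f (insert i K) + (a * (f K - f (insert i K)) +
          ∑ j ∈ K, a * (f (insert i (K.erase j)) - f (insert i K)))) =
        (Ig (1 - a) K (fun J => f (insert i J)) - (f (insert i K) +
          ∑ j ∈ K, a * (f (insert i (K.erase j)) - f (insert i K)))) +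
        (-(a * (Ig (1 - a) K (fun J => f (insert i J)) - f (insert i K))) +
          a * (Ig (1 - a) K f - f K)) := by ring
    rw [e]
    refine (abs_add_le _ _).trans ?_
    have h5 := abs_add_le (-(a * (Ig (1 - a) K (fun J => f (insert i J)) - f (insert i K))))
      (a * (Ig (1 - a) K f - f K))
    rw [abs_neg, abs_mul, abs_mul, abs_of_nonneg h0] at h5
    have h6 := mul_le_mul_of_nonneg_left h3 h0
    have h7 := mul_le_mul_of_nonneg_left h4 h0
    push_cast
    nlinarith [h2, h5, h6, h7]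

theorem Av_congr (Q : ℕ) (f g : ℤ → ℝ) (h : ∀ t, f t = g t) : Av Q f = Av Q g := by
  unfold Av
  congr 1
  exact sum_congr rfl fun t _ => h (t : ℤ)

theorem Av_const (Q : ℕ) (hQ : 0 < Q) (c : ℝ) : Av Q (fun _ => c) = c := by
  unfold Av
  rw [sum_const, card_range, nsmul_eq_mul]
  field_simp

theorem Av_add (Q : ℕ) (f g : ℤ → ℝ) : Av Q (fun t => f t + g t) = Av Q f + Av Q g := by
  unfold Av
  rw [sum_add_distrib, add_div]

theorem Av_mul (Q : ℕ) (f : ℤ → ℝ) (c : ℝ) : Av Q (fun t => c * f t) = c * Av Q f := by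
  unfold Av
  rw [← mul_sum, mul_div_assoc]

theorem Av_sum (Q : ℕ) {ι : Type} (s : Finset ι) (f : ι → ℤ → ℝ) :
    Av Q (fun t => ∑ i ∈ s, f i t) = ∑ i ∈ s, Av Q (f i) := by
  unfold Av
  rw [sum_comm, sum_div]

theorem Av_abs_sub (Q : ℕ) (hQ : 0 < Q) (f g : ℤ → ℝ) (M : ℝ) (h : ∀ t, |f t - g t| ≤ M) :
    |Av Q f - Av Q g| ≤ M := by
  unfold Av
  rw [← sub_div, ← sum_sub_distrib, abs_div, abs_of_pos (by exact_mod_cast hQ : (0 : ℝ) < (Q : ℝ)),
    div_le_iff₀ (by exact_mod_cast hQ)]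
  refine (abs_sum_le_sum_abs _ _).trans ?_
  have h1 : ∑ t ∈ range Q, |f (t : ℤ) - g (t : ℤ)| ≤ ∑ _t ∈ range Q, M :=
    sum_le_sum fun t _ => h (t : ℤ)
  refine h1.trans ?_
  rw [sum_const, card_range, nsmul_eq_mul, mul_comm]

theorem gS_mem (P : Finset ℕ) (h : ∀ p ∈ P, p.Prime ∧ 5 ≤ p) : 0 ≤ gS P ∧ gS P ≤ 1 := by
  have h1 : ∀ p ∈ P, 0 ≤ 1 - 2 / (p : ℝ) ∧ 1 - 2 / (p : ℝ) ≤ 1 := by
    intro p hp
    have h5 : (5 : ℝ) ≤ (p : ℝ) := by exact_mod_cast (h p hp).2
    constructor
    · rw [sub_nonneg, div_le_one (by linarith)]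
      linarith
    · have : 0 ≤ 2 / (p : ℝ) := by positivity
      linarith
  unfold gS
  exact ⟨prod_nonneg fun p hp => (h1 p hp).1, prod_le_one (fun p hp => (h1 p hp).1)
    (fun p hp => (h1 p hp).2)⟩

open Classical in
/-- at most one element is removed -/
theorem f_sdiff (hX : StmtXSB) (p H : ℕ) (hp : p.Prime) (h5 : 5 ≤ p) (hH : 3 * H + 1 < p)
    (K : Finset ℕ) (hK : K ⊆ range (H + 1)) (f : Finset ℕ → ℝ) (a : ℤ) :
    f (K.filter (fun i : ℕ => yI p (a + (i : ℤ)) ≠ 1)) =
      f K + ∑ i ∈ K, yI p (a + (i : ℤ)) * (f (K.erase i) - f K) := by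
  by_cases h : ∃ i ∈ K, yI p (a + (i : ℤ)) = 1
  · obtain ⟨i, hi, hy⟩ := h
    have hu : ∀ j ∈ K, j ≠ i → yI p (a + (j : ℤ)) = 0 := by
      intro j hj hji
      rcases hX.yzo p (a + (j : ℤ)) with h0 | h0
      · exact h0
      · exfalso
        apply hji
        refine hX.sep p H hp h5 hH a j i ?_ ?_ h0 hy
        · have := mem_range.mp (hK hj); omega
        · have := mem_range.mp (hK hi); omega
    have e1 : K.filter (fun i : ℕ => yI p (a + (i : ℤ)) ≠ 1) = K.erase i := by
      ext j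
      rw [mem_filter, mem_erase]
      constructor
      · rintro ⟨h1, h2⟩
        refine ⟨?_, h1⟩
        rintro rfl
        exact h2 hy
      · rintro ⟨h1, h2⟩
        refine ⟨h2, ?_⟩
        rw [hu j h2 h1]
        norm_num
    rw [e1, sum_eq_single i]
    · rw [hy]; ring
    · intro j hj hji
      rw [hu j hj hji, zero_mul]
    · intro h
      exact absurd hi h
  · push Not at h
    have e1 : K.filter (fun i : ℕ => yI p (a + (i : ℤ)) ≠ 1) = K := by
      rw [filter_eq_self]
      exact h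
    rw [e1, sum_eq_zero, add_zero]
    intro j hj
    rcases hX.yzo p (a + (j : ℤ)) with h0 | h0
    · rw [h0, zero_mul]
    · exact absurd h0 (h j hj)

theorem Av_yI (hP : StmtPER) (hX : StmtXSB) (p : ℕ) (hp : p.Prime) (h5 : 5 ≤ p) (i : ℕ) :
    Av p (fun a => yI p (a + (i : ℤ))) = 2 / (p : ℝ) := by
  rw [← hX.two p hp h5]
  exact hP.shift p (yI p) (hX.yper p) (i : ℤ)

open Classical in
theorem Av_f' (hP : StmtPER) (hX : StmtXSB) (p H : ℕ) (hp : p.Prime) (h5 : 5 ≤ p)
    (hH : 3 * H + 1 < p) (K : Finset ℕ) (hK : K ⊆ range (H + 1)) (f : Finset ℕ → ℝ) :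
    Av p (fun a => f (K.filter (fun i : ℕ => yI p (a + (i : ℤ)) ≠ 1))) =
      f K + ∑ i ∈ K, (2 / (p : ℝ)) * (f (K.erase i) - f K) := by
  rw [Av_congr _ _ _ (f_sdiff hX p H hp h5 hH K hK f), Av_add, Av_const p hp.pos, Av_sum]
  congr 1
  refine sum_congr rfl fun i _ => ?_
  rw [← Av_yI hP hX p hp h5 i]
  rw [Av_congr p _ (fun t => (f (K.erase i) - f K) * yI p (t + (i : ℤ))) (fun t => mul_comm _ _),
    Av_mul, mul_comm]

open Classical in
theorem main (hP : StmtPER) (hX : StmtXSB) (H : ℕ) (U : Finset ℕ) (hU : U ⊆ range (H + 1))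
    (P : Finset ℕ) : (∀ p ∈ P, p.Prime ∧ 5 ≤ p ∧ 3 * H + 1 < p) →
    ∀ f : Finset ℕ → ℝ, (∀ K, K ⊆ U → |f K| ≤ 1) →
    |Av (QS P) (fun t => f (U.filter (fun i : ℕ => XS P (t + (i : ℤ)) = 1)))
      - Ig (gS P) U f| ≤ 8 * (U.card : ℝ) ^ 2 * ∑ p ∈ P, 1 / (p : ℝ) ^ 2 := by
  induction P using Finset.induction_on with
  | empty =>
    intro _ f hf
    have e1 : gS ∅ = 1 := by simp [gS]
    have e2 : QS ∅ = 1 := by simp [QS]
    have e3 : ∀ t : ℤ, f (U.filter (fun i : ℕ => XS ∅ (t + (i : ℤ)) = 1)) = f U := by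
      intro t
      congr 1
      rw [filter_eq_self]
      intro i _
      simp [XS]
    rw [e1, e2, Ig_one, Av_congr _ _ _ e3, Av_const 1 one_pos]
    simp
  | insert p P hpP ih =>
    intro hall f hf
    obtain ⟨hp, h5, hH⟩ := hall p (mem_insert_self p P)
    have hallP : ∀ q ∈ P, q.Prime ∧ 5 ≤ q ∧ 3 * H + 1 < q :=
      fun q hq => hall q (mem_insert_of_mem hq)
    have ihP := ih hallP
    have hcop := hX.cop {p} P (by simpa using hp) (fun q hq => (hallP q hq).1)
      (disjoint_singleton_left.mpr hpP)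
    have hQp : QS {p} = p := by simp [QS]
    have hcop2 := hX.cop P {p} (fun q hq => (hallP q hq).1) (by simpa using hp)
      (disjoint_singleton_right.mpr hpP)
    have hQpos : 0 < QS P := hcop2.2.2
    rw [hQp] at hcop
    have hQ : QS (insert p P) = p * QS P := by
      rw [← hcop.2.1, ← insert_eq]
    have hg : gS (insert p P) = gS P * (1 - 2 / (p : ℝ)) := by
      unfold gS
      rw [prod_insert hpP, mul_comm]
    have hgP := gS_mem P (fun q hq => ⟨(hallP q hq).1, (hallP q hq).2.1⟩)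
    have hXS : ∀ t : ℤ, XS (insert p P) t = (1 - yI p t) * XS P t := by
      intro t
      unfold XS
      rw [prod_insert hpP]
    -- the set
    have hset : ∀ a b : ℤ, U.filter (fun i : ℕ => (1 - yI p (a + (i : ℤ))) * XS P (b + (i : ℤ)) = 1) =
        (U.filter (fun i : ℕ => XS P (b + (i : ℤ)) = 1)).filter
          (fun i : ℕ => yI p (a + (i : ℤ)) ≠ 1) := by
      intro a b
      rw [filter_filter]
      refine filter_congr fun i _ => ?_
      rcases hX.yzo p (a + (i : ℤ)) with h | h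
      · rw [h]; simp
      · rw [h]; simp
    -- CRT
    have hcrt := hP.crt p (QS P) hp.pos hQpos hcop.1
      (fun a b => f (U.filter (fun i : ℕ =>
        (1 - yI p (a + (i : ℤ))) * XS P (b + (i : ℤ)) = 1)))
      (by
        intro a b
        have : ∀ i : ℕ, yI p (a + (p : ℤ) + (i : ℤ)) = yI p (a + (i : ℤ)) := by
          intro i
          rw [show a + (p : ℤ) + (i : ℤ) = (a + (i : ℤ)) + (p : ℤ) by ring]
          exact hX.yper p _
        simp only [this])
      (by
        intro a b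
        have : ∀ i : ℕ, XS P (b + (QS P : ℤ) + (i : ℤ)) = XS P (b + (i : ℤ)) := by
          intro i
          rw [show b + (QS P : ℤ) + (i : ℤ) = (b + (i : ℤ)) + (QS P : ℤ) by ring]
          exact hX.per P _
        simp only [this])
    have e1 : Av (QS (insert p P)) (fun t => f (U.filter (fun i : ℕ =>
          XS (insert p P) (t + (i : ℤ)) = 1))) =
        Av p (fun a => Av (QS P) (fun b => f ((U.filter (fun i : ℕ => XS P (b + (i : ℤ)) = 1)).filter
          (fun i : ℕ => yI p (a + (i : ℤ)) ≠ 1)))) := by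
      rw [hQ]
      simp only [hXS]
      rw [hcrt]
      simp only [hset]
    rw [e1, hg, ← Ig_comp]
    -- step 1
    have s1 : |Av p (fun a => Av (QS P) (fun b => f ((U.filter (fun i : ℕ =>
          XS P (b + (i : ℤ)) = 1)).filter (fun i : ℕ => yI p (a + (i : ℤ)) ≠ 1)))) -
        Av p (fun a => Ig (gS P) U (fun K => f (K.filter (fun i : ℕ => yI p (a + (i : ℤ)) ≠ 1))))| ≤
        8 * (U.card : ℝ) ^ 2 * ∑ p ∈ P, 1 / (p : ℝ) ^ 2 := by
      refine Av_abs_sub p hp.pos _ _ _ fun a => ?_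
      exact ihP (fun K => f (K.filter (fun i : ℕ => yI p (a + (i : ℤ)) ≠ 1)))
        (fun K hK => hf _ ((filter_subset _ _).trans hK))
    -- step 2
    have e2 : Av p (fun a => Ig (gS P) U (fun K => f (K.filter (fun i : ℕ =>
        yI p (a + (i : ℤ)) ≠ 1)))) =
        Ig (gS P) U (fun K => f K + ∑ i ∈ K, (2 / (p : ℝ)) * (f (K.erase i) - f K)) := by
      unfold Ig
      rw [Av_sum]
      refine sum_congr rfl fun K hK => ?_
      rw [Av_mul, Av_f' hP hX p H hp h5 hH K ((mem_powerset.mp hK).trans hU) f]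
    have h5' : (5 : ℝ) ≤ (p : ℝ) := by exact_mod_cast h5
    have ha0 : (0 : ℝ) ≤ 2 / (p : ℝ) := by positivity
    have ha1 : 2 / (p : ℝ) ≤ 1 := by
      rw [div_le_one (by linarith)]
      linarith
    have s2 : |Ig (gS P) U (fun K => f K + ∑ i ∈ K, (2 / (p : ℝ)) * (f (K.erase i) - f K)) -
        Ig (gS P) U (fun K => Ig (1 - 2 / (p : ℝ)) K f)| ≤
        8 * (U.card : ℝ) ^ 2 * (1 / (p : ℝ) ^ 2) := by
      have e3 : Ig (gS P) U (fun K => f K + ∑ i ∈ K, (2 / (p : ℝ)) * (f (K.erase i) - f K)) -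
          Ig (gS P) U (fun K => Ig (1 - 2 / (p : ℝ)) K f) =
          Ig (gS P) U (fun K => 1 * (f K + ∑ i ∈ K, (2 / (p : ℝ)) * (f (K.erase i) - f K)) +
            (-1) * Ig (1 - 2 / (p : ℝ)) K f) := by
        rw [Ig_comb]
        ring
      rw [e3]
      refine Ig_le _ hgP.1 hgP.2 _ _ _ fun K hK => ?_
      have h6 := Ig_second (2 / (p : ℝ)) ha0 ha1 K f (fun J hJ => hf J (hJ.trans hK))
      rw [abs_sub_comm] at h6
      have e4 : 1 * (f K + ∑ i ∈ K, (2 / (p : ℝ)) * (f (K.erase i) - f K)) +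
            (-1) * Ig (1 - 2 / (p : ℝ)) K f =
          f K + ∑ i ∈ K, (2 / (p : ℝ)) * (f (K.erase i) - f K) - Ig (1 - 2 / (p : ℝ)) K f := by
        ring
      rw [e4]
      refine h6.trans ?_
      have h7 : (K.card : ℝ) ≤ (U.card : ℝ) := by exact_mod_cast card_le_card hK
      have h8 : (0 : ℝ) ≤ (K.card : ℝ) := by positivity
      have h9 : (K.card : ℝ) * ((K.card : ℝ) - 1) ≤ (U.card : ℝ) ^ 2 := by nlinarith
      have h10 : 2 * (2 / (p : ℝ)) ^ 2 = 8 * (1 / (p : ℝ) ^ 2) := by
        rw [div_pow]; ring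
      rw [h10]
      have h11 : (0 : ℝ) ≤ 8 * (1 / (p : ℝ) ^ 2) := by positivity
      have h12 := mul_le_mul_of_nonneg_left h9 h11
      linarith
    rw [e2] at s1
    have s3 := (abs_sub_le _ _ _).trans (add_le_add s1 s2)
    refine s3.trans (le_of_eq ?_)
    rw [sum_insert hpP]
    ring

/-- PACKET TV -/
theorem tv (hP : StmtPER) (hX : StmtXSB) : StmtTV := by
  intro P H hall U hU f hf
  exact main hP hX H U hU P hall f hf

end Pool.Agent.Helper70.TB
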