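import Pool.Agent.Helper76.TB.Goals
import Pool.Agent.Helper64.BFT.LipSeq

/-!
# Project TB (MP_74f661_nt): packet SEQ2, the signed count and the local statistic
-/

set_option autoImplicit false

open Finset

namespace Pool.Agent.Helper70.TB

open Pool.Agent.Helper90.Twin (sig sig_of_next sig_of_no_next)
open Pool.Agent.Helper60.BFT
open Pool.Agent.Helper76.TB

/-- the indicator of a next element at distance at most `H` -/
noncomputable def on (X : ℕ → ℝ) (H t : ℕ) : ℝ :=
  ∑ g ∈ Icc 1 H, 1 * X (t + g) * ∏ i ∈ Ioo 0 g, (1 - X (t + i))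

theorem on_of_next {X : ℕ → ℝ} {H t g : ℕ} (hg1 : 1 ≤ g) (hgH : g ≤ H) (hXg : X (t + g) = 1)
    (hbetween : ∀ i, 0 < i → i < g → X (t + i) = 0) : on X H t = 1 := by
  unfold on
  rw [Finset.sum_eq_single_of_mem g (Finset.mem_Icc.2 ⟨hg1, hgH⟩)]
  · rw [hXg, Finset.prod_eq_one]
    · ring
    · intro i hi
      rw [Finset.mem_Ioo] at hi
      rw [hbetween i hi.1 hi.2]
      ring
  · intro g' hg' hne
    rw [Finset.mem_Icc] at hg'
    rcases Nat.lt_or_gt_of_ne hne with h | h
    · rw [hbetween g' (by omega) h]
      ring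
    · rw [Finset.prod_eq_zero (Finset.mem_Ioo.2 ⟨by omega, h⟩) (by rw [hXg]; ring)]
      ring

theorem on_of_no_next {X : ℕ → ℝ} {H t : ℕ} (h : ∀ i, 0 < i → i ≤ H → X (t + i) = 0) :
    on X H t = 0 := by
  unfold on
  apply Finset.sum_eq_zero
  intro g hg
  rw [Finset.mem_Icc] at hg
  rw [h g (by omega) hg.2]
  ring

theorem on_le {X : ℕ → ℝ} (hX : ∀ k, X k = 0 ∨ X k = 1) (H t : ℕ) : on X H t ≤ 1 := by
  classical
  by_cases h : ∃ i, 0 < i ∧ i ≤ H ∧ X (t + i) = 1
  · obtain ⟨h1, h2, h3⟩ := Nat.find_spec h
    rw [on_of_next (g := Nat.find h) h1 h2 h3]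
    intro i hi hig
    have := Nat.find_min h hig
    rcases hX (t + i) with h0 | h0
    · exact h0
    · exact absurd ⟨hi, by omega, h0⟩ this
  · push Not at h
    rw [on_of_no_next]
    · norm_num
    · intro i hi hiH
      exact (hX (t + i)).resolve_right (h i hi hiH)

theorem phi_sg (X : ℕ → ℝ) (H t : ℕ) : phi sg X H t = X t * sig X H t := rfl

theorem phi_one (X : ℕ → ℝ) (H t : ℕ) : phi (fun _ => 1) X H t = X t * on X H t := rfl

/-- the defect -/
noncomputable def ee (X : ℕ → ℝ) (H t : ℕ) : ℝ := X t - X t * on X H t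

theorem ee_nonneg {X : ℕ → ℝ} (hX : ∀ k, X k = 0 ∨ X k = 1) (H t : ℕ) : 0 ≤ ee X H t := by
  have h := on_le hX H t
  unfold ee
  rcases hX t with h0 | h0
  · rw [h0]; simp
  · rw [h0]; linarith

/-- SEQ2 -/
theorem seq2 : SEQ2G := by
  intro X hX H N hH
  have key : ∀ N : ℕ,
      ((run (fun t => (-1 : ℝ) ^ t) X N).2 = 0 ∧
        B2 X N - ∑ t ∈ range N, X t * sig X H t = 0) ∨
      (∃ t < N, X t = 1 ∧ (∀ i, t < i → i < N → X i = 0) ∧
        (run (fun t => (-1 : ℝ) ^ t) X N).2 = (-1 : ℝ) ^ t ∧
        |B2 X N - ∑ t ∈ range N, X t * sig X H t + sig X H t| ≤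
          ∑ s ∈ range N, ee X H s - ee X H t) := by
    intro N
    induction N with
    | zero => left; simp [run, B2]
    | succ N ih =>
      have eB : B2 X (N + 1) = B2 X N + X N * (-1 : ℝ) ^ N *
          (run (fun t => (-1 : ℝ) ^ t) X N).2 := rfl
      have eR : (run (fun t => (-1 : ℝ) ^ t) X (N + 1)).2
          = X N * (-1 : ℝ) ^ N + (1 - X N) * (run (fun t => (-1 : ℝ) ^ t) X N).2 := rfl
      rw [eB, eR, Finset.sum_range_succ, Finset.sum_range_succ]
      rcases hX N with h0 | h1
      · rw [h0]
        rcases ih with ⟨h2, h3⟩ | ⟨t, ht, h2, h3, h4, h5⟩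
        · left
          exact ⟨by rw [h2]; ring, by linear_combination h3⟩
        · right
          refine ⟨t, by omega, h2, ?_, by rw [h4]; ring, ?_⟩
          · intro i hi hiN
            rcases Nat.lt_or_ge i N with h | h
            · exact h3 i hi h
            · have : i = N := by omega
              rw [this, h0]
          · have e : B2 X N + 0 * (-1 : ℝ) ^ N * (run (fun t => (-1 : ℝ) ^ t) X N).2
                - (∑ t ∈ range N, X t * sig X H t + 0 * sig X H N) + sig X H t
                = B2 X N - ∑ t ∈ range N, X t * sig X H t + sig X H t := by ring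
            rw [e]
            have := ee_nonneg hX H N
            linarith
      · rw [h1]
        right
        refine ⟨N, by omega, h1, fun i hi hiN => by omega, by ring, ?_⟩
        rcases ih with ⟨h2, h3⟩ | ⟨t, ht, h2, h3, h4, h5⟩
        · have e : B2 X N + 1 * (-1 : ℝ) ^ N * (run (fun t => (-1 : ℝ) ^ t) X N).2
                - (∑ t ∈ range N, X t * sig X H t + 1 * sig X H N) + sig X H N
                = B2 X N - ∑ t ∈ range N, X t * sig X H t := by rw [h2]; ring
          rw [e, h3, abs_zero, add_sub_cancel_right]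
          exact Finset.sum_nonneg fun s _ => ee_nonneg hX H s
        · rw [h4]
          have e : B2 X N + 1 * (-1 : ℝ) ^ N * (-1 : ℝ) ^ t
                - (∑ t ∈ range N, X t * sig X H t + 1 * sig X H N) + sig X H N
                = (B2 X N - ∑ t ∈ range N, X t * sig X H t + sig X H t)
                  + ((-1 : ℝ) ^ (N + t) - sig X H t) := by
            rw [pow_add]; ring
          rw [e, add_sub_cancel_right]
          have hpar : (-1 : ℝ) ^ (N + t) = (-1 : ℝ) ^ (N - t) := by
            have : N + t = (N - t) + 2 * t := by omega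
            rw [this, pow_add, pow_mul]
            norm_num
          have hNt : t + (N - t) = N := by omega
          by_cases hg : N - t ≤ H
          · have h6 : sig X H t = (-1 : ℝ) ^ (N - t) :=
              sig_of_next (by omega) hg (by rw [hNt]; exact h1)
                (fun i hi hi2 => h3 _ (by omega) (by omega))
            rw [hpar, h6, sub_self, add_zero]
            rw [h6] at h5
            have := ee_nonneg hX H t
            linarith
          · have h6 : sig X H t = 0 :=
              sig_of_no_next (fun i hi hi2 => h3 _ (by omega) (by omega))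
            have h9 : ee X H t = 1 := by
              unfold ee
              rw [on_of_no_next (fun i hi hi2 => h3 _ (by omega) (by omega)), h2]
              ring
            rw [h6, sub_zero]
            rw [h6] at h5
            refine (abs_add_le _ _).trans ?_
            have h7 : |(-1 : ℝ) ^ (N + t)| = 1 := by rw [abs_pow, abs_neg, abs_one, one_pow]
            rw [h7]
            linarith
  have e1 : ∑ t ∈ range N, phi sg X H t = ∑ t ∈ range N, X t * sig X H t := rfl
  have e2 : ∑ t ∈ range N, (X t - phi (fun _ => 1) X H t) = ∑ t ∈ range N, ee X H t := rfl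
  rw [e1, e2]
  have h0 : 0 ≤ ∑ t ∈ range N, ee X H t := Finset.sum_nonneg fun s _ => ee_nonneg hX H s
  rcases key N with ⟨-, h⟩ | ⟨t, ht, -, -, -, h⟩
  · rw [h, abs_zero]
    linarith
  · have h1 := Pool.Agent.Helper64.BFT.abs_sig_le hX H t
    have h2 : |B2 X N - ∑ t ∈ range N, X t * sig X H t|
        ≤ |B2 X N - ∑ t ∈ range N, X t * sig X H t + sig X H t| + |sig X H t| := by
      have := abs_sub (B2 X N - ∑ t ∈ range N, X t * sig X H t + sig X H t) (sig X H t)
      rwa [add_sub_cancel_right] at this
    have h3 := ee_nonneg hX H t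
    linarith

end Pool.Agent.Helper70.TB
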